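import Mathlib

set_option autoImplicit false
set_option linter.unusedSectionVars false

/-! # A profinite group in the units of the quaternion division algebra over `ℚ_5` -/

namespace Pool.Agent.R630.CSA

noncomputable section

instance fact5 : Fact (Nat.Prime 5) := ⟨by norm_num⟩

/-- Quaternions `a + b i + c j + d k` over `ℤ_[5]`, with `i² = 2`, `j² = 5`, `k = i j`. -/
@[ext] structure V where
  a : ℤ_[5]
  b : ℤ_[5]
  c : ℤ_[5]
  d : ℤ_[5]

namespace V

instance : Mul V := ⟨fun x y =>
  ⟨x.a * y.a + 2 * (x.b * y.b) + 5 * (x.c * y.c) - 10 * (x.d * y.d),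
   x.a * y.b + x.b * y.a - 5 * (x.c * y.d) + 5 * (x.d * y.c),
   x.a * y.c + x.c * y.a + 2 * (x.b * y.d) - 2 * (x.d * y.b),
   x.a * y.d + x.d * y.a + x.b * y.c - x.c * y.b⟩⟩

instance : One V := ⟨⟨1, 0, 0, 0⟩⟩

/-- conjugate -/
def conj (x : V) : V := ⟨x.a, -x.b, -x.c, -x.d⟩

/-- norm -/
def nrm (x : V) : ℤ_[5] := x.a ^ 2 - 2 * x.b ^ 2 - 5 * x.c ^ 2 + 10 * x.d ^ 2

@[simp] theorem mul_a (x y : V) :
    (x * y).a = x.a * y.a + 2 * (x.b * y.b) + 5 * (x.c * y.c) - 10 * (x.d * y.d) := rfl
@[simp] theorem mul_b (x y : V) :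
    (x * y).b = x.a * y.b + x.b * y.a - 5 * (x.c * y.d) + 5 * (x.d * y.c) := rfl
@[simp] theorem mul_c (x y : V) :
    (x * y).c = x.a * y.c + x.c * y.a + 2 * (x.b * y.d) - 2 * (x.d * y.b) := rfl
@[simp] theorem mul_d (x y : V) :
    (x * y).d = x.a * y.d + x.d * y.a + x.b * y.c - x.c * y.b := rfl
@[simp] theorem one_a : (1 : V).a = 1 := rfl
@[simp] theorem one_b : (1 : V).b = 0 := rfl
@[simp] theorem one_c : (1 : V).c = 0 := rfl
@[simp] theorem one_d : (1 : V).d = 0 := rfl
@[simp] theorem conj_a (x : V) : (conj x).a = x.a := rfl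
@[simp] theorem conj_b (x : V) : (conj x).b = -x.b := rfl
@[simp] theorem conj_c (x : V) : (conj x).c = -x.c := rfl
@[simp] theorem conj_d (x : V) : (conj x).d = -x.d := rfl

instance : Monoid V where
  mul_assoc x y z := by ext1 <;> simp <;> ring
  one_mul x := by ext1 <;> simp
  mul_one x := by ext1 <;> simp

theorem nrm_mul (x y : V) : nrm (x * y) = nrm x * nrm y := by
  simp only [nrm, mul_a, mul_b, mul_c, mul_d]
  ring

theorem nrm_conj (x : V) : nrm (conj x) = nrm x := by
  simp only [nrm, conj_a, conj_b, conj_c, conj_d]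
  ring

theorem conj_mul_self (x : V) : conj x * x = ⟨nrm x, 0, 0, 0⟩ := by
  ext1 <;> simp [nrm] <;> ring

end V

/-- reduction modulo `5` -/
abbrev red : ℤ_[5] →+* ZMod 5 := PadicInt.toZMod

theorem red_eq_zero {x : ℤ_[5]} : red x = 0 ↔ (5 : ℤ_[5]) ∣ x := by
  rw [← RingHom.mem_ker, PadicInt.ker_toZMod, PadicInt.maximalIdeal_eq_span_p,
    Ideal.mem_span_singleton]
  exact Iff.rfl

/-- the subset `{1, 2 + 2 i, 2 + 3 i}` of `F_25` -/
def C3 (s t : ZMod 5) : Prop := (s = 1 ∧ t = 0) ∨ (s = 2 ∧ t = 2) ∨ (s = 2 ∧ t = 3)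

instance (s t : ZMod 5) : Decidable (C3 s t) := by unfold C3; infer_instance

theorem C3_mul : ∀ s t s' t' : ZMod 5, C3 s t → C3 s' t' →
    C3 (s * s' + 2 * (t * t')) (s * t' + t * s') := by decide

theorem C3_neg : ∀ s t : ZMod 5, C3 s t → C3 s (-t) := by decide

theorem red5 : red 5 = 0 := red_eq_zero.2 dvd_rfl

/-- membership in the group -/
def Mem (x : V) : Prop := V.nrm x = 1 ∧ C3 (red x.a) (red x.b)

/-- the group -/
def Γ : Type := {x : V // Mem x}

theorem Mem.mul {x y : V} (hx : Mem x) (hy : Mem y) : Mem (x * y) := by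
  refine ⟨by rw [V.nrm_mul, hx.1, hy.1, one_mul], ?_⟩
  have h := C3_mul _ _ _ _ hx.2 hy.2
  have e1 : red (x * y).a = red x.a * red y.a + 2 * (red x.b * red y.b) := by
    have h10 : red 10 = 0 := by
      have : (10 : ℤ_[5]) = 5 * 2 := by norm_num
      rw [this, map_mul, red5, zero_mul]
    have h2 : red 2 = 2 := map_ofNat _ 2
    rw [V.mul_a, map_sub, map_add, map_add, map_mul, map_mul, map_mul, map_mul, map_mul, map_mul,
      map_mul, red5, h10, h2]
    ring
  have e2 : red (x * y).b = red x.a * red y.b + red x.b * red y.a := by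
    rw [V.mul_b, map_add, map_sub, map_add, map_mul, map_mul, map_mul, map_mul, map_mul, map_mul,
      red5]
    ring
  rw [e1, e2]
  exact h

theorem Mem.one : Mem 1 := by
  refine ⟨by simp [V.nrm], ?_⟩
  left
  simp

theorem Mem.conj {x : V} (hx : Mem x) : Mem (V.conj x) := by
  refine ⟨by rw [V.nrm_conj, hx.1], ?_⟩
  rw [V.conj_a, V.conj_b, map_neg]
  exact C3_neg _ _ hx.2

instance : Mul Γ := ⟨fun x y => ⟨x.1 * y.1, x.2.mul y.2⟩⟩
instance : One Γ := ⟨⟨1, Mem.one⟩⟩
instance : Inv Γ := ⟨fun x => ⟨V.conj x.1, x.2.conj⟩⟩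

@[simp] theorem mul_val (x y : Γ) : (x * y).1 = x.1 * y.1 := rfl
@[simp] theorem one_val : (1 : Γ).1 = 1 := rfl
@[simp] theorem inv_val (x : Γ) : (x⁻¹).1 = V.conj x.1 := rfl

instance : Group Γ where
  mul_assoc x y z := Subtype.ext (mul_assoc x.1 y.1 z.1)
  one_mul x := Subtype.ext (one_mul x.1)
  mul_one x := Subtype.ext (mul_one x.1)
  inv_mul_cancel x := by
    apply Subtype.ext
    rw [mul_val, inv_val, V.conj_mul_self, x.2.1]
    rfl

/-! ### topology -/

/-- `V` as a product -/
def toProd (x : V) : ℤ_[5] × ℤ_[5] × ℤ_[5] × ℤ_[5] := (x.a, x.b, x.c, x.d)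

/-- `V` as a product -/
def equivProd : V ≃ ℤ_[5] × ℤ_[5] × ℤ_[5] × ℤ_[5] where
  toFun := toProd
  invFun y := ⟨y.1, y.2.1, y.2.2.1, y.2.2.2⟩
  left_inv _ := rfl
  right_inv _ := rfl

instance : TopologicalSpace V := TopologicalSpace.induced toProd inferInstance

/-- the homeomorphism with the product -/
def homeo : V ≃ₜ ℤ_[5] × ℤ_[5] × ℤ_[5] × ℤ_[5] where
  toEquiv := equivProd
  continuous_toFun := continuous_induced_dom
  continuous_invFun := continuous_induced_rng.2 continuous_id

theorem continuous_a : Continuous V.a := continuous_fst.comp homeo.continuous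
theorem continuous_b : Continuous V.b :=
  (continuous_fst.comp continuous_snd).comp homeo.continuous
theorem continuous_c : Continuous V.c :=
  (continuous_fst.comp (continuous_snd.comp continuous_snd)).comp homeo.continuous
theorem continuous_d : Continuous V.d :=
  (continuous_snd.comp (continuous_snd.comp continuous_snd)).comp homeo.continuous

theorem continuous_mk {X : Type} [TopologicalSpace X] {f g h k : X → ℤ_[5]}
    (hf : Continuous f) (hg : Continuous g) (hh : Continuous h) (hk : Continuous k) :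
    Continuous fun x => (⟨f x, g x, h x, k x⟩ : V) :=
  homeo.symm.continuous.comp (hf.prodMk (hg.prodMk (hh.prodMk hk)))

instance : CompactSpace V := homeo.symm.compactSpace
instance : T2Space V := homeo.symm.t2Space
instance : TotallyDisconnectedSpace V := homeo.symm.totallyDisconnectedSpace

instance : TopologicalSpace Γ := inferInstanceAs (TopologicalSpace {x : V // Mem x})
instance : T2Space Γ := inferInstanceAs (T2Space {x : V // Mem x})
instance : TotallyDisconnectedSpace Γ := inferInstanceAs (TotallyDisconnectedSpace {x : V // Mem x})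

theorem isClosed_dvd (m : ℤ_[5]) : IsClosed {x : ℤ_[5] | m ∣ x} := by
  have h : {x : ℤ_[5] | m ∣ x} = Set.range fun y => m * y := by
    ext x
    constructor
    · rintro ⟨y, hy⟩
      exact ⟨y, hy.symm⟩
    · rintro ⟨y, hy⟩
      exact ⟨y, hy.symm⟩
  rw [h]
  exact (isCompact_range (continuous_const.mul continuous_id)).isClosed

theorem isClosed_red (m : ℤ_[5]) : IsClosed {x : ℤ_[5] | red x = red m} := by
  have h : {x : ℤ_[5] | red x = red m} = (fun x => x - m) ⁻¹' {x : ℤ_[5] | (5 : ℤ_[5]) ∣ x} := by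
    ext x
    show red x = red m ↔ (5 : ℤ_[5]) ∣ x - m
    rw [← red_eq_zero, map_sub, sub_eq_zero]
  rw [h]
  exact (isClosed_dvd 5).preimage (continuous_id.sub continuous_const)

theorem isClosed_Mem : IsClosed {x : V | Mem x} := by
  have h1 : Continuous V.nrm := by
    unfold V.nrm
    exact (((continuous_a.pow 2).sub (continuous_const.mul (continuous_b.pow 2))).sub
      (continuous_const.mul (continuous_c.pow 2))).add (continuous_const.mul (continuous_d.pow 2))
  have hr : ∀ (n : ℕ) (f : V → ℤ_[5]), Continuous f → IsClosed {x : V | red (f x) = (n : ZMod 5)} := by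
    intro n f hf
    have := (isClosed_red (n : ℤ_[5])).preimage hf
    rwa [map_natCast] at this
  have h2 : {x : V | Mem x} = {x | V.nrm x = 1} ∩
      (({x | red x.a = (1 : ℕ)} ∩ {x | red x.b = (0 : ℕ)}) ∪
        (({x | red x.a = (2 : ℕ)} ∩ {x | red x.b = (2 : ℕ)}) ∪
          ({x | red x.a = (2 : ℕ)} ∩ {x | red x.b = (3 : ℕ)}))) := by
    ext x
    simp only [Mem, C3, Nat.cast_one, Nat.cast_zero, Nat.cast_ofNat]
    rfl
  rw [h2]
  exact (isClosed_eq h1 continuous_const).inter
    (((hr 1 _ continuous_a).inter (hr 0 _ continuous_b)).union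
      (((hr 2 _ continuous_a).inter (hr 2 _ continuous_b)).union
        ((hr 2 _ continuous_a).inter (hr 3 _ continuous_b))))

instance : CompactSpace Γ := isCompact_iff_compactSpace.1 isClosed_Mem.isCompact

instance : IsTopologicalGroup Γ where
  continuous_mul := by
    have h1 : Continuous fun p : Γ × Γ => p.1.1 := continuous_subtype_val.comp continuous_fst
    have h2 : Continuous fun p : Γ × Γ => p.2.1 := continuous_subtype_val.comp continuous_snd
    refine Continuous.subtype_mk ?_ _
    have a1 := continuous_a.comp h1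
    have b1 := continuous_b.comp h1
    have c1 := continuous_c.comp h1
    have d1 := continuous_d.comp h1
    have a2 := continuous_a.comp h2
    have b2 := continuous_b.comp h2
    have c2 := continuous_c.comp h2
    have d2 := continuous_d.comp h2
    have k : ∀ n : ℤ_[5], Continuous fun _ : Γ × Γ => n := fun n => continuous_const
    exact continuous_mk
      ((((a1.mul a2).add ((k 2).mul (b1.mul b2))).add ((k 5).mul (c1.mul c2))).sub
        ((k 10).mul (d1.mul d2)))
      ((((a1.mul b2).add (b1.mul a2)).sub ((k 5).mul (c1.mul d2))).add ((k 5).mul (d1.mul c2)))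
      ((((a1.mul c2).add (c1.mul a2)).add ((k 2).mul (b1.mul d2))).sub ((k 2).mul (d1.mul b2)))
      ((((a1.mul d2).add (d1.mul a2)).add (b1.mul c2)).sub (c1.mul b2))
  continuous_inv := by
    have h1 : Continuous fun p : Γ => p.1 := continuous_subtype_val
    refine Continuous.subtype_mk ?_ _
    exact continuous_mk (continuous_a.comp h1) (continuous_b.comp h1).neg
      (continuous_c.comp h1).neg (continuous_d.comp h1).neg

end

end Pool.Agent.R630.CSA
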