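import Pool.Agent.R630.CSA.Core

set_option autoImplicit false
set_option linter.unusedSectionVars false

/-! # The CSA property, and not pro-`p` -/

namespace Pool.Agent.R630.CSA

noncomputable section

theorem sq_eq : ∀ s t : ZMod 5, s ^ 2 - 2 * t ^ 2 = 0 → s = 0 ∧ t = 0 := by decide

theorem dvd_of_sq {s t r : ℤ_[5]} (h : s ^ 2 - 2 * t ^ 2 = 5 * r) :
    (∃ s', s = 5 * s') ∧ ∃ t', t = 5 * t' := by
  have h1 : red s ^ 2 - 2 * red t ^ 2 = 0 := by
    have := congrArg red h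
    rw [map_sub, map_pow, map_mul, map_mul, map_pow, red5, zero_mul, map_ofNat] at this
    exact this
  obtain ⟨h2, h3⟩ := sq_eq _ _ h1
  exact ⟨red_eq_zero.1 h2, red_eq_zero.1 h3⟩

theorem five_ne : (5 : ℤ_[5]) ≠ 0 := by norm_num

theorem descent (n : ℕ) : ∀ u : V, V.nrm u = 0 →
    (5 : ℤ_[5]) ^ n ∣ u.a ∧ (5 : ℤ_[5]) ^ n ∣ u.b ∧ (5 : ℤ_[5]) ^ n ∣ u.c ∧ (5 : ℤ_[5]) ^ n ∣ u.d := by
  induction n with
  | zero => intro u _; simp
  | succ n ih =>
    rintro ⟨a, b, c, d⟩ h
    have h' : a ^ 2 - 2 * b ^ 2 - 5 * c ^ 2 + 10 * d ^ 2 = 0 := h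
    obtain ⟨⟨a', rfl⟩, b', rfl⟩ := dvd_of_sq (s := a) (t := b) (r := c ^ 2 - 2 * d ^ 2)
      (by linear_combination h')
    have h2 : c ^ 2 - 2 * d ^ 2 = 5 * (a' ^ 2 - 2 * b' ^ 2) := by
      apply mul_left_cancel₀ five_ne
      linear_combination -h'
    obtain ⟨⟨c', rfl⟩, d', rfl⟩ := dvd_of_sq h2
    have h3 : V.nrm ⟨a', b', c', d'⟩ = 0 := by
      show a' ^ 2 - 2 * b' ^ 2 - 5 * c' ^ 2 + 10 * d' ^ 2 = 0
      have h25 : (25 : ℤ_[5]) ≠ 0 := by norm_num
      apply mul_left_cancel₀ h25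
      linear_combination h'
    obtain ⟨i1, i2, i3, i4⟩ := ih _ h3
    simp only at i1 i2 i3 i4
    refine ⟨?_, ?_, ?_, ?_⟩ <;> (simp only [pow_succ']; exact mul_dvd_mul_left _ ‹_›)

theorem eq_zero_of_dvd {x : ℤ_[5]} (h : ∀ n : ℕ, (5 : ℤ_[5]) ^ n ∣ x) : x = 0 := by
  by_contra hx
  have h1 := h (x.valuation + 1)
  have h2 := (PadicInt.mem_span_pow_iff_le_valuation x hx (x.valuation + 1)).1
    (Ideal.mem_span_singleton.2 (by exact_mod_cast h1))
  omega

theorem eq_zero_of_nrm {u : V} (h : V.nrm u = 0) : u.a = 0 ∧ u.b = 0 ∧ u.c = 0 ∧ u.d = 0 :=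
  ⟨eq_zero_of_dvd fun n => (descent n u h).1, eq_zero_of_dvd fun n => (descent n u h).2.1,
    eq_zero_of_dvd fun n => (descent n u h).2.2.1, eq_zero_of_dvd fun n => (descent n u h).2.2.2⟩

/-- two elements commute iff their imaginary parts are parallel -/
theorem comm_iff {x y : Γ} : x * y = y * x ↔
    x.1.c * y.1.d = x.1.d * y.1.c ∧ x.1.b * y.1.d = x.1.d * y.1.b ∧
      x.1.b * y.1.c = x.1.c * y.1.b := by
  constructor
  · intro h
    have h0 : x.1 * y.1 = y.1 * x.1 := congrArg Subtype.val h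
    have hb := congrArg V.b h0
    have hc := congrArg V.c h0
    have hd := congrArg V.d h0
    simp only [V.mul_b, V.mul_c, V.mul_d] at hb hc hd
    have h10 : (10 : ℤ_[5]) ≠ 0 := by norm_num
    have h4 : (4 : ℤ_[5]) ≠ 0 := by norm_num
    have h2 : (2 : ℤ_[5]) ≠ 0 := by norm_num
    refine ⟨?_, ?_, ?_⟩
    · apply mul_left_cancel₀ h10
      linear_combination -hb
    · apply mul_left_cancel₀ h4
      linear_combination hc
    · apply mul_left_cancel₀ h2
      linear_combination hd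
  · rintro ⟨h1, h2, h3⟩
    apply Subtype.ext
    show x.1 * y.1 = y.1 * x.1
    ext1
    · simp only [V.mul_a]; ring
    · simp only [V.mul_b]; linear_combination (-10) * h1
    · simp only [V.mul_c]; linear_combination 4 * h2
    · simp only [V.mul_d]; linear_combination 2 * h3

theorem c3_neg_one : ¬ C3 (-1 : ZMod 5) 0 := by decide

theorem eq_one_of_im {x : Γ} (hb : x.1.b = 0) (hc : x.1.c = 0) (hd : x.1.d = 0) : x = 1 := by
  obtain ⟨⟨a, b, c, d⟩, h1, h2⟩ := x
  simp only at hb hc hd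
  subst hb hc hd
  have h3 : a ^ 2 = 1 := by
    have : a ^ 2 - 2 * 0 ^ 2 - 5 * 0 ^ 2 + 10 * 0 ^ 2 = 1 := h1
    linear_combination this
  have h4 : (a - 1) * (a + 1) = 0 := by linear_combination h3
  rcases mul_eq_zero.1 h4 with h | h
  · have h : a = 1 := sub_eq_zero.1 h
    subst h
    rfl
  · exfalso
    have h : a = -1 := eq_neg_of_add_eq_zero_left h
    subst h
    apply c3_neg_one
    simpa using h2

theorem im_ne {x : Γ} (hx : x ≠ 1) : x.1.b ≠ 0 ∨ x.1.c ≠ 0 ∨ x.1.d ≠ 0 := by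
  by_contra h
  push Not at h
  exact hx (eq_one_of_im h.1 h.2.1 h.2.2)

/-- commuting is transitive through a nontrivial element -/
theorem trans {x y z : Γ} (hx : x ≠ 1) (hy : y * x = x * y) (hz : z * x = x * z) :
    y * z = z * y := by
  rw [comm_iff] at hy hz ⊢
  obtain ⟨y1, y2, y3⟩ := hy
  obtain ⟨z1, z2, z3⟩ := hz
  rcases im_ne hx with h | h | h
  · have hh := mul_ne_zero h h
    refine ⟨?_, ?_, ?_⟩
    · apply mul_left_cancel₀ hh
      linear_combination (-x.1.b * z.1.d) * y3 + (x.1.c * y.1.b) * (-z2) -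
        (-x.1.b * z.1.c) * y2 - (x.1.d * y.1.b) * (-z3)
    · apply mul_left_cancel₀ h
      linear_combination (-y.1.b) * z2 + z.1.b * y2
    · apply mul_left_cancel₀ h
      linear_combination (-y.1.b) * z3 + z.1.b * y3
  · have hh := mul_ne_zero h h
    refine ⟨?_, ?_, ?_⟩
    · apply mul_left_cancel₀ h
      linear_combination (-y.1.c) * z1 + z.1.c * y1
    · apply mul_left_cancel₀ hh
      linear_combination (x.1.c * z.1.d) * y3 + (x.1.b * y.1.c) * (-z1) -
        (-x.1.c * z.1.b) * y1 - (x.1.d * y.1.c) * z3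
    · apply mul_left_cancel₀ h
      linear_combination z.1.c * y3 - y.1.c * z3
  · have hh := mul_ne_zero h h
    refine ⟨?_, ?_, ?_⟩
    · apply mul_left_cancel₀ h
      linear_combination z.1.d * y1 - y.1.d * z1
    · apply mul_left_cancel₀ h
      linear_combination z.1.d * y2 - y.1.d * z2
    · apply mul_left_cancel₀ hh
      linear_combination (x.1.d * z.1.c) * y2 + (x.1.b * y.1.d) * z1 -
        (x.1.d * z.1.b) * y1 - (x.1.c * y.1.d) * z2

theorem no_invol {x : Γ} (h : x * x = 1) : x = 1 := by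
  have h1 : x⁻¹ = x := inv_eq_of_mul_eq_one_left h
  have h2 : V.conj x.1 = x.1 := congrArg Subtype.val h1
  have hb := congrArg V.b h2
  have hc := congrArg V.c h2
  have hd := congrArg V.d h2
  simp only [V.conj_b, V.conj_c, V.conj_d] at hb hc hd
  have key : ∀ t : ℤ_[5], -t = t → t = 0 := by
    intro t ht
    have h2 : (2 : ℤ_[5]) ≠ 0 := by norm_num
    apply mul_left_cancel₀ h2
    linear_combination -ht
  exact eq_one_of_im (key _ hb) (key _ hc) (key _ hd)

theorem conj_cases {x g : Γ} (h : (g⁻¹ * x * g) * x = x * (g⁻¹ * x * g)) :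
    g⁻¹ * x * g = x ∨ g⁻¹ * x * g = x⁻¹ := by
  set y := g⁻¹ * x * g with hy
  have ha : y.1.a = x.1.a := by
    have h1 : ∀ s t : Γ, (s * t).1.a = (t * s).1.a := by
      intro s t
      simp only [mul_val, V.mul_a]
      ring
    rw [hy, h1, mul_inv_cancel_left]
  obtain ⟨c1, c2, c3⟩ := comm_iff.1 h
  have n1 : y.1.a ^ 2 - 2 * y.1.b ^ 2 - 5 * y.1.c ^ 2 + 10 * y.1.d ^ 2 = 1 := y.2.1
  have n2 : x.1.a ^ 2 - 2 * x.1.b ^ 2 - 5 * x.1.c ^ 2 + 10 * x.1.d ^ 2 = 1 := x.2.1
  let u : V := ⟨0, y.1.b - x.1.b, y.1.c - x.1.c, y.1.d - x.1.d⟩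
  let w : V := ⟨0, y.1.b + x.1.b, y.1.c + x.1.c, y.1.d + x.1.d⟩
  have huw : u * w = ⟨0, 0, 0, 0⟩ := by
    ext1
    · simp only [V.mul_a, u, w]
      rw [ha] at n1
      linear_combination n2 - n1
    · simp only [V.mul_b, u, w]
      linear_combination (-10) * c1
    · simp only [V.mul_c, u, w]
      linear_combination 4 * c2
    · simp only [V.mul_d, u, w]
      linear_combination 2 * c3
  have hn : V.nrm u * V.nrm w = 0 := by
    rw [← V.nrm_mul, huw]
    simp [V.nrm]
  rcases mul_eq_zero.1 hn with h0 | h0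
  · left
    obtain ⟨-, e2, e3, e4⟩ := eq_zero_of_nrm h0
    apply Subtype.ext
    ext1
    · exact ha
    · exact sub_eq_zero.1 e2
    · exact sub_eq_zero.1 e3
    · exact sub_eq_zero.1 e4
  · right
    obtain ⟨-, e2, e3, e4⟩ := eq_zero_of_nrm h0
    apply Subtype.ext
    ext1
    · exact ha
    · exact eq_neg_of_add_eq_zero_left e2
    · exact eq_neg_of_add_eq_zero_left e3
    · exact eq_neg_of_add_eq_zero_left e4

theorem csa (A : Subgroup Γ)
    (hA : Maximal (fun B : Subgroup Γ => ∀ x ∈ B, ∀ y ∈ B, x * y = y * x) A)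
    (g : Γ) (hg : g ∉ A) (x : Γ) (hx : x ∈ A) (hgx : g⁻¹ * x * g ∈ A) : x = 1 := by
  by_contra hne
  -- the centralizer of `x` is contained in `A`
  have hC : ∀ y : Γ, y * x = x * y → y ∈ A := by
    let B : Subgroup Γ := Subgroup.centralizer {x}
    have hB : ∀ y ∈ B, y * x = x * y := fun y hy => (Subgroup.mem_centralizer_iff.1 hy x rfl).symm
    have h1 : B ≤ A := by
      apply hA.2
      · intro y hy z hz
        exact trans hne (hB y hy) (hB z hz)
      · intro y hy
        rw [Subgroup.mem_centralizer_iff]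
        rintro z rfl
        exact hA.1 z hx y hy
    intro y hy
    apply h1
    rw [Subgroup.mem_centralizer_iff]
    rintro z rfl
    exact hy.symm
  rcases conj_cases (hA.1 _ hgx _ hx) with h | h
  · apply hg
    apply hC
    have : x * g = g * x := by
      calc x * g = g * (g⁻¹ * x * g) := by group
        _ = g * x := by rw [h]
    exact this.symm
  · have h2 : (g * g)⁻¹ * x * (g * g) = x := by
      calc (g * g)⁻¹ * x * (g * g) = g⁻¹ * (g⁻¹ * x * g) * g := by group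
        _ = g⁻¹ * x⁻¹ * g := by rw [h]
        _ = (g⁻¹ * x * g)⁻¹ := by group
        _ = x := by rw [h, inv_inv]
    by_cases hgg : g * g = 1
    · exact hg (by rw [no_invol hgg]; exact one_mem _)
    · apply hg
      apply hC
      have h3 : x * (g * g) = (g * g) * x := by
        calc x * (g * g) = (g * g) * ((g * g)⁻¹ * x * (g * g)) := by group
          _ = (g * g) * x := by rw [h2]
      exact trans hgg (mul_assoc g g g).symm h3

/-! ### not pro-`p` -/

theorem red_mul (x y : V) :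
    red (x * y).a = red x.a * red y.a + 2 * (red x.b * red y.b) ∧
    red (x * y).b = red x.a * red y.b + red x.b * red y.a ∧
    red (x * y).c = red x.a * red y.c + red x.c * red y.a + 2 * (red x.b * red y.d) -
      2 * (red x.d * red y.b) ∧
    red (x * y).d = red x.a * red y.d + red x.d * red y.a + red x.b * red y.c -
      red x.c * red y.b := by
  have h10 : red 10 = 0 := by
    have : (10 : ℤ_[5]) = 5 * 2 := by norm_num
    rw [this, map_mul, red5, zero_mul]
  have h2 : red 2 = 2 := map_ofNat _ 2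
  refine ⟨?_, ?_, ?_, ?_⟩
  · simp only [V.mul_a, map_sub, map_add, map_mul, red5, h10, h2]
    ring
  · simp only [V.mul_b, map_sub, map_add, map_mul, red5]
    ring
  · simp only [V.mul_c, map_sub, map_add, map_mul, h2]
  · simp only [V.mul_d, map_sub, map_add, map_mul]

/-- first congruence subgroup -/
def N1 : Subgroup Γ where
  carrier := {x | red x.1.b = 0}
  mul_mem' := by
    intro x y hx hy
    show red (x.1 * y.1).b = 0
    rw [(red_mul _ _).2.1, show red x.1.b = 0 from hx, show red y.1.b = 0 from hy]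
    ring
  one_mem' := by
    show red (0 : ℤ_[5]) = 0
    exact map_zero _
  inv_mem' := by
    intro x hx
    show red (-x.1.b) = 0
    rw [map_neg, show red x.1.b = 0 from hx, neg_zero]

instance : N1.Normal := by
  refine ⟨fun x hx g => ?_⟩
  show red (g.1 * x.1 * V.conj g.1).b = 0
  rw [(red_mul _ _).2.1, (red_mul _ _).1, (red_mul _ _).2.1, show red x.1.b = 0 from hx, V.conj_a,
    V.conj_b, map_neg]
  ring

/-- second congruence subgroup -/
def N2 : Subgroup Γ where
  carrier := {x | red x.1.b = 0 ∧ red x.1.c = 0 ∧ red x.1.d = 0}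
  mul_mem' := by
    rintro x y ⟨h1, h2, h3⟩ ⟨k1, k2, k3⟩
    refine ⟨?_, ?_, ?_⟩
    · show red (x.1 * y.1).b = 0
      rw [(red_mul _ _).2.1, h1, k1]
      ring
    · show red (x.1 * y.1).c = 0
      rw [(red_mul _ _).2.2.1, h1, k1, h2, k2]
      ring
    · show red (x.1 * y.1).d = 0
      rw [(red_mul _ _).2.2.2, h1, k1, h3, k3]
      ring
  one_mem' := by
    refine ⟨?_, ?_, ?_⟩ <;> exact map_zero red
  inv_mem' := by
    rintro x ⟨h1, h2, h3⟩
    refine ⟨?_, ?_, ?_⟩
    · show red (-x.1.b) = 0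
      rw [map_neg, h1, neg_zero]
    · show red (-x.1.c) = 0
      rw [map_neg, h2, neg_zero]
    · show red (-x.1.d) = 0
      rw [map_neg, h3, neg_zero]

instance : N2.Normal := by
  refine ⟨fun x hx g => ?_⟩
  obtain ⟨h1, h2, h3⟩ := hx
  refine ⟨?_, ?_, ?_⟩
  · show red (g.1 * x.1 * V.conj g.1).b = 0
    rw [(red_mul _ _).2.1, (red_mul _ _).1, (red_mul _ _).2.1, h1, V.conj_a, V.conj_b, map_neg]
    ring
  · show red (g.1 * x.1 * V.conj g.1).c = 0
    rw [(red_mul (g.1 * x.1) _).2.2.1, (red_mul _ _).1, (red_mul _ _).2.1, (red_mul _ _).2.2.1,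
      (red_mul _ _).2.2.2, h1, h2, h3, V.conj_a, V.conj_b, V.conj_c, V.conj_d, map_neg, map_neg,
      map_neg]
    ring
  · show red (g.1 * x.1 * V.conj g.1).d = 0
    rw [(red_mul (g.1 * x.1) _).2.2.2, (red_mul _ _).1, (red_mul _ _).2.1, (red_mul _ _).2.2.1,
      (red_mul _ _).2.2.2, h1, h2, h3, V.conj_a, V.conj_b, V.conj_c, V.conj_d, map_neg, map_neg,
      map_neg]
    ring

theorem isOpen_red : IsOpen {x : ℤ_[5] | red x = 0} := by
  have h : {x : ℤ_[5] | red x = 0} = {x : ℤ_[5] | ‖x‖ < 1} := by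
    ext x
    show red x = 0 ↔ ‖x‖ < 1
    rw [red_eq_zero, PadicInt.norm_lt_one_iff_dvd]
    exact Iff.rfl
  rw [h]
  exact isOpen_lt continuous_norm continuous_const

theorem isOpen_N1 : IsOpen (N1 : Set Γ) :=
  isOpen_red.preimage (continuous_b.comp continuous_subtype_val)

theorem isOpen_N2 : IsOpen (N2 : Set Γ) := by
  have h : (N2 : Set Γ) = {x : Γ | red x.1.b = 0} ∩ ({x : Γ | red x.1.c = 0} ∩
      {x : Γ | red x.1.d = 0}) := rfl
  rw [h]
  exact (isOpen_red.preimage (continuous_b.comp continuous_subtype_val)).inter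
    ((isOpen_red.preimage (continuous_c.comp continuous_subtype_val)).inter
      (isOpen_red.preimage (continuous_d.comp continuous_subtype_val)))

/-- an element of order `3` modulo `N1` -/
def x0 : Γ := ⟨⟨2, 2, 1, 1⟩, by
  refine ⟨?_, ?_⟩
  · show (2 : ℤ_[5]) ^ 2 - 2 * 2 ^ 2 - 5 * 1 ^ 2 + 10 * 1 ^ 2 = 1
    norm_num
  · right; left
    exact ⟨map_ofNat _ 2, map_ofNat _ 2⟩⟩

/-- an element of order `5` modulo `N2` -/
def y0 : Γ := ⟨⟨-4, -5, -1, -2⟩, by
  refine ⟨?_, ?_⟩
  · show (-4 : ℤ_[5]) ^ 2 - 2 * (-5) ^ 2 - 5 * (-1) ^ 2 + 10 * (-2) ^ 2 = 1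
    norm_num
  · left
    refine ⟨?_, ?_⟩
    · show red (-4) = 1
      rw [map_neg, map_ofNat]
      decide
    · show red (-5) = 0
      rw [map_neg, red5, neg_zero]⟩

theorem x0_not : x0 ∉ N1 := by
  intro h
  have h1 : red 2 = 0 := h
  rw [map_ofNat] at h1
  exact absurd h1 (by decide)

theorem x0_pow : x0 ^ 3 ∈ N1 := by
  rw [pow_succ, pow_two]
  show red (x0.1 * x0.1 * x0.1).b = 0
  have h1 : red x0.1.a = 2 := map_ofNat _ 2
  have h2 : red x0.1.b = 2 := map_ofNat _ 2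
  rw [(red_mul _ _).2.1, (red_mul _ _).2.1, (red_mul _ _).1, h1, h2]
  decide

theorem y0_not : y0 ∉ N2 := by
  rintro ⟨-, h, -⟩
  have h1 : red (-1) = 0 := h
  rw [map_neg, map_one] at h1
  exact absurd h1 (by decide)

theorem y0_pow : y0 ^ 5 ∈ N2 := by
  have h5 : y0 ^ 5 = y0 * y0 * (y0 * y0) * y0 := by
    rw [pow_succ, show (4 : ℕ) = 2 + 2 from rfl, pow_add, pow_two]
  rw [h5]
  have ha : red y0.1.a = 1 := by
    show red (-4) = 1
    rw [map_neg, map_ofNat]
    decide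
  have hb : red y0.1.b = 0 := by
    show red (-5) = 0
    rw [map_neg, red5, neg_zero]
  have hc : red y0.1.c = 4 := by
    show red (-1) = 4
    rw [map_neg, map_one]
    decide
  have hd : red y0.1.d = 3 := by
    show red (-2) = 3
    rw [map_neg, map_ofNat]
    decide
  set y := y0.1 with hy
  have a2 : red (y * y).a = 1 := by rw [(red_mul _ _).1, ha, hb]; decide
  have b2 : red (y * y).b = 0 := by rw [(red_mul _ _).2.1, ha, hb]; decide
  have c2 : red (y * y).c = 3 := by rw [(red_mul _ _).2.2.1, ha, hb, hc, hd]; decide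
  have d2 : red (y * y).d = 1 := by rw [(red_mul _ _).2.2.2, ha, hb, hc, hd]; decide
  have a4 : red (y * y * (y * y)).a = 1 := by rw [(red_mul (y * y) _).1, a2, b2]; decide
  have b4 : red (y * y * (y * y)).b = 0 := by rw [(red_mul (y * y) _).2.1, a2, b2]; decide
  have c4 : red (y * y * (y * y)).c = 1 := by
    rw [(red_mul (y * y) _).2.2.1, a2, b2, c2, d2]; decide
  have d4 : red (y * y * (y * y)).d = 2 := by
    rw [(red_mul (y * y) _).2.2.2, a2, b2, c2, d2]; decide
  refine ⟨?_, ?_, ?_⟩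
  · show red (y * y * (y * y) * y).b = 0
    rw [(red_mul (y * y * (y * y)) _).2.1, a4, b4, ha, hb]; decide
  · show red (y * y * (y * y) * y).c = 0
    rw [(red_mul (y * y * (y * y)) _).2.2.1, a4, b4, c4, d4, ha, hb, hc, hd]; decide
  · show red (y * y * (y * y) * y).d = 0
    rw [(red_mul (y * y * (y * y)) _).2.2.2, a4, b4, c4, d4, ha, hb, hc, hd]; decide

theorem not_pgroup (N : Subgroup Γ) [N.Normal] (x : Γ) (m p : ℕ) (hx : x ∉ N) (hm : x ^ m ∈ N)
    (hco : Nat.Coprime m p) : ¬ IsPGroup p (Γ ⧸ N) := by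
  intro h
  obtain ⟨k, hk⟩ := h (x : Γ ⧸ N)
  have h1 : ((x : Γ ⧸ N)) ^ m = 1 := by
    rw [← QuotientGroup.mk_pow]
    exact (QuotientGroup.eq_one_iff _).2 hm
  have h2 := orderOf_dvd_of_pow_eq_one hk
  have h3 := orderOf_dvd_of_pow_eq_one h1
  have h4 : orderOf (x : Γ ⧸ N) = 1 :=
    Nat.eq_one_of_dvd_coprimes (Nat.Coprime.pow_right k hco) h3 h2
  rw [orderOf_eq_one_iff] at h4
  exact hx ((QuotientGroup.eq_one_iff _).1 h4)

theorem not_pro (p : ℕ) (hp : p.Prime) :
    ∃ (N : Subgroup Γ) (_ : N.Normal), IsOpen (N : Set Γ) ∧ ¬ IsPGroup p (Γ ⧸ N) := by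
  by_cases h3 : p = 3
  · subst h3
    exact ⟨N2, inferInstance, isOpen_N2, not_pgroup N2 y0 5 3 y0_not y0_pow (by norm_num)⟩
  · refine ⟨N1, inferInstance, isOpen_N1, not_pgroup N1 x0 3 p x0_not x0_pow ?_⟩
    exact (Nat.coprime_primes Nat.prime_three hp).2 (Ne.symm h3)

theorem nonabelian : x0 * y0 ≠ y0 * x0 := by
  intro h
  have h1 := (comm_iff.1 h).1
  have h2 : (1 : ℤ_[5]) * (-2) = 1 * (-1) := h1
  norm_num at h2

end

end Pool.Agent.R630.CSA
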